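import Pool.Agent.Helper50.Tm.Goals2
import Pool.Agent.Helper48.Tm.GAL

/-!
PROJECT TAME (MP_f619a5_ag), packet TW-GALC: the Galois action preserves the identity component.
The lemma `key` is the one of Pool/Agent/Helper48/Tm/GAL.lean (helper48), with one more conclusion.
-/

set_option autoImplicit false

open CategoryTheory AlgebraicGeometry Limits TensorProduct MonoidalCategory
open scoped Obj

namespace Pool.Agent.Helper37.Tm

open Pool.Agent.Helper50.Tm
open Pool.Agent.Helper40.Nm (specOver homGroup specialFibre)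
open Pool.Agent.Helper48.Tm (bcEquiv_comp)

theorem key {K S N : Type} [Field K] [CommRing S] [Field N] [Algebra K N]
    [Algebra S N] {X : Over (Spec (CommRingCat.of K))} [GrpObj X] (ℋ : NeronModel K S N X)
    (σ : N ≃ₐ[K] N) (τ : S ≃+* S) (hτ : ∀ s, algebraMap S N (τ s) = σ (algebraMap S N s)) :
    ∃ v : ℋ.G.left ⟶ ℋ.G.left,
      v ≫ ℋ.G.hom = ℋ.G.hom ≫ Spec.map (CommRingCat.ofHom (τ.symm : S →+* S)) ∧
      ∀ x : Pts X N, (sec ℋ (x.map (σ : N →ₐ[K] N))).left =
        Spec.map (CommRingCat.ofHom (τ : S →+* S)) ≫ (sec ℋ x).left ≫ v := by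
  let f : Spec (CommRingCat.of S) ⟶ Spec (CommRingCat.of S) :=
    Spec.map (CommRingCat.ofHom (τ : S →+* S))
  let fi : Spec (CommRingCat.of S) ⟶ Spec (CommRingCat.of S) :=
    Spec.map (CommRingCat.ofHom (τ.symm : S →+* S))
  let g : Spec (CommRingCat.of N) ⟶ Spec (CommRingCat.of N) :=
    Spec.map (CommRingCat.ofHom (σ : N →ₐ[K] N).toRingHom)
  let i : Spec (CommRingCat.of N) ⟶ Spec (CommRingCat.of S) :=
    Spec.map (CommRingCat.ofHom (algebraMap S N))
  let j : Spec (CommRingCat.of N) ⟶ Spec (CommRingCat.of K) :=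
    Spec.map (CommRingCat.ofHom (algebraMap K N))
  have hif : i ≫ f = g ≫ i := by
    change Spec.map _ ≫ Spec.map _ = Spec.map _ ≫ Spec.map _
    rw [← Spec.map_comp, ← Spec.map_comp, ← CommRingCat.ofHom_comp, ← CommRingCat.ofHom_comp]
    have : (algebraMap S N).comp (τ : S →+* S) =
        ((σ : N →ₐ[K] N).toRingHom).comp (algebraMap S N) := by
      ext s
      exact hτ s
    rw [this]
  have hgj : g ≫ j = j := by
    change Spec.map _ ≫ Spec.map _ = Spec.map _
    rw [← Spec.map_comp, ← CommRingCat.ofHom_comp]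
    have : ((σ : N →ₐ[K] N).toRingHom).comp (algebraMap K N) = algebraMap K N := by
      ext s
      exact σ.commutes s
    rw [this]
  have hffi : f ≫ fi = 𝟙 _ := by
    change Spec.map _ ≫ Spec.map _ = _
    rw [← Spec.map_comp, ← CommRingCat.ofHom_comp]
    have : (τ : S →+* S).comp (τ.symm : S →+* S) = RingHom.id S := by
      ext s
      exact τ.apply_symm_apply s
    rw [this]
    exact Spec.map_id _
  have hfif : fi ≫ f = 𝟙 _ := by
    change Spec.map _ ≫ Spec.map _ = _
    rw [← Spec.map_comp, ← CommRingCat.ofHom_comp]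
    have : (τ.symm : S →+* S).comp (τ : S →+* S) = RingHom.id S := by
      ext s
      exact τ.symm_apply_apply s
    rw [this]
    exact Spec.map_id _
  let Y : Over (Spec (CommRingCat.of S)) := Over.mk (ℋ.G.hom ≫ fi)
  have hiso : IsIso fi := ⟨f, hfif, hffi⟩
  have hsm : Smooth Y.hom := by
    change Smooth (ℋ.G.hom ≫ fi)
    have := ℋ.smooth
    infer_instance
  have hq : (pullback.fst Y.hom i) ≫ ℋ.G.hom = (pullback.snd Y.hom i ≫ g) ≫ i := by
    have h1 : pullback.fst Y.hom i ≫ (ℋ.G.hom ≫ fi) = pullback.snd Y.hom i ≫ i :=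
      pullback.condition
    rw [Category.assoc, ← hif, ← Category.assoc, ← h1, Category.assoc, Category.assoc, hfif,
      Category.comp_id]
  let q : pullback Y.hom i ⟶ pullback ℋ.G.hom i :=
    pullback.lift (pullback.fst Y.hom i) (pullback.snd Y.hom i ≫ g) hq
  have hq1 : q ≫ pullback.fst ℋ.G.hom i = pullback.fst Y.hom i := pullback.lift_fst _ _ _
  have hq2 : q ≫ pullback.snd ℋ.G.hom i = pullback.snd Y.hom i ≫ g := pullback.lift_snd _ _ _
  have hiso2 : ℋ.iso.hom.left ≫ pullback.snd X.hom j = pullback.snd ℋ.G.hom i := Over.w ℋ.iso.hom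
  have hu : (q ≫ ℋ.iso.hom.left ≫ pullback.fst X.hom j) ≫ X.hom =
      pullback.snd Y.hom i ≫ j := by
    rw [Category.assoc, Category.assoc, pullback.condition, ← Category.assoc ℋ.iso.hom.left,
      hiso2, ← Category.assoc, hq2, Category.assoc, hgj]
  let u : (bc S N).obj Y ⟶ (bc K N).obj X :=
    Over.homMk (U := (bc S N).obj Y) (V := (bc K N).obj X)
      (pullback.lift (q ≫ ℋ.iso.hom.left ≫ pullback.fst X.hom j) (pullback.snd Y.hom i) hu)
      (by exact pullback.lift_snd _ _ _)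
  have hu1 : u.left ≫ pullback.fst X.hom j = q ≫ ℋ.iso.hom.left ≫ pullback.fst X.hom j :=
    pullback.lift_fst _ _ _
  obtain ⟨v, hv⟩ := (ℋ.neron Y hsm).2 u
  refine ⟨v.left, Over.w v, fun x => ?_⟩
  let s' : Pts Y S := Over.homMk (U := SpecA S S) (V := Y) (f ≫ (sec ℋ x).left) (by
    have h1 : (sec ℋ x).left ≫ ℋ.G.hom = 𝟙 _ := by
      rw [Over.w (sec ℋ x)]
      exact Spec.map_id _
    change (f ≫ (sec ℋ x).left) ≫ ℋ.G.hom ≫ fi = Spec.map (CommRingCat.ofHom (RingHom.id S))
    rw [Category.assoc, ← Category.assoc (sec ℋ x).left, h1, Category.id_comp, hffi]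
    exact (Spec.map_id _).symm)
  have hs' : sec ℋ (x.map (σ : N →ₐ[K] N)) = s' ≫ v := by
    rw [sec_eq_iff]
    apply Over.OverMorphism.ext
    rw [gen_apply, bcEquiv_symm_left]
    have e1 : bcEquiv (M := N) ℋ.G (Pts.map (Algebra.ofId S N) (s' ≫ v)) ≫ ℋ.iso.hom =
        bcEquiv (M := N) Y (Pts.map (Algebra.ofId S N) s') ≫ u := by
      have : (Pts.map (Algebra.ofId S N) (s' ≫ v) : Pts ℋ.G N) =
          Pts.map (Algebra.ofId S N) s' ≫ v := (Category.assoc _ _ _).symm
      rw [this, bcEquiv_comp, Category.assoc]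
      exact congrArg _ hv
    rw [e1, Over.comp_left, Category.assoc, hu1]
    have e2 : (bcEquiv (M := N) Y (Pts.map (Algebra.ofId S N) s')).left ≫ q =
        g ≫ (bcEquiv (M := N) ℋ.G (Pts.map (Algebra.ofId S N) (sec ℋ x))).left := by
      apply pullback.hom_ext
      · rw [Category.assoc, hq1, Category.assoc]
        refine (bcEquiv_left_fst (M := N) Y (Pts.map (Algebra.ofId S N) s')).trans ?_
        refine Eq.trans ?_ (congrArg (g ≫ ·)
          (bcEquiv_left_fst (M := N) ℋ.G (Pts.map (Algebra.ofId S N) (sec ℋ x)))).symm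
        change i ≫ f ≫ (sec ℋ x).left = g ≫ i ≫ (sec ℋ x).left
        rw [← Category.assoc, hif, Category.assoc]
      · rw [Category.assoc, hq2, Category.assoc]
        have h1 : (bcEquiv (M := N) Y (Pts.map (Algebra.ofId S N) s')).left ≫
            pullback.snd Y.hom i = 𝟙 _ := by
          refine (Over.w (bcEquiv (M := N) Y (Pts.map (Algebra.ofId S N) s'))).trans ?_
          exact Spec.map_id _
        have h2 : (bcEquiv (M := N) ℋ.G (Pts.map (Algebra.ofId S N) (sec ℋ x))).left ≫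
            pullback.snd ℋ.G.hom i = 𝟙 _ := by
          refine (Over.w (bcEquiv (M := N) ℋ.G (Pts.map (Algebra.ofId S N) (sec ℋ x)))).trans ?_
          exact Spec.map_id _
        rw [← Category.assoc, h1, h2, Category.id_comp]
        exact (Category.comp_id g).symm
    rw [← Category.assoc, e2, Category.assoc]
    have e3 := congrArg (fun z : Pts X N => z.left) (gen_sec ℋ x)
    simp only [gen_apply, bcEquiv_symm_left] at e3
    rw [Over.comp_left, Category.assoc] at e3
    exact congrArg (g ≫ ·) e3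
  rw [hs']
  exact Category.assoc _ _ _

theorem cpt_eq {S : Type} [CommRing S] [IsLocalRing S] {G : Over (Spec (CommRingCat.of S))}
    (τ : S ≃+* S) (s s' : Pts G S) (v : G.left ⟶ G.left)
    (h : s'.left = Spec.map (CommRingCat.ofHom (τ : S →+* S)) ≫ s.left ≫ v) :
    cpt s' = v (cpt s) := by
  have hloc : IsLocalHom (τ : S →+* S) := by
    constructor
    intro a ha
    exact (isUnit_map_iff τ a).1 ha
  have h1 : cpt s' = s'.left (IsLocalRing.closedPoint S) := rfl
  rw [h1, h]
  have h2 : (Spec.map (CommRingCat.ofHom (τ : S →+* S)) ≫ s.left ≫ v)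
      (IsLocalRing.closedPoint S) =
      v (s.left ((Spec.map (CommRingCat.ofHom (τ : S →+* S))) (IsLocalRing.closedPoint S))) := rfl
  rw [h2]
  have h3 : (Spec.map (CommRingCat.ofHom (τ : S →+* S))) (IsLocalRing.closedPoint S) =
      IsLocalRing.closedPoint S := IsLocalRing.comap_closedPoint (τ : S →+* S)
  rw [h3]
  rfl

theorem gGALC : GALC := by
  intro K S N _ _ _ _ _ _ X _ ℋ σ τ hτ x hx
  obtain ⟨v, hv0, hv⟩ := key ℋ σ τ hτ
  have hloc : IsLocalHom (τ.symm : S →+* S) := by
    constructor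
    intro a ha
    exact (isUnit_map_iff τ.symm a).1 ha
  have h1 : sec ℋ ((1 : Pts X N).map (σ : N →ₐ[K] N)) = 1 := by
    rw [Pts.map_one, map_one]
  have e1 : cpt (1 : Pts ℋ.G S) = v (cpt (1 : Pts ℋ.G S)) := by
    have := cpt_eq τ _ _ v (hv 1)
    rw [h1, map_one] at this
    exact this
  have e2 : cpt (sec ℋ (x.map (σ : N →ₐ[K] N))) = v (cpt (sec ℋ x)) := cpt_eq τ _ _ v (hv x)
  have hsub : v '' specialFibre ℋ.G ⊆ specialFibre ℋ.G := by
    rintro _ ⟨y, hy, rfl⟩
    have h2 : ℋ.G.hom y = IsLocalRing.closedPoint S := hy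
    show ℋ.G.hom (v y) = IsLocalRing.closedPoint S
    have h3 : ℋ.G.hom (v y) = (v ≫ ℋ.G.hom) y := rfl
    rw [h3, hv0]
    have h4 : (ℋ.G.hom ≫ Spec.map (CommRingCat.ofHom (τ.symm : S →+* S))) y =
      (Spec.map (CommRingCat.ofHom (τ.symm : S →+* S))) (ℋ.G.hom y) := rfl
    rw [h4, h2]
    exact IsLocalRing.comap_closedPoint (τ.symm : S →+* S)
  have hone : cpt (1 : Pts ℋ.G S) ∈ specialFibre ℋ.G := by
    have h := Over.w (1 : Pts ℋ.G S)
    show ℋ.G.hom ((1 : Pts ℋ.G S).left (IsLocalRing.closedPoint S)) = IsLocalRing.closedPoint S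
    have h2 : ((1 : Pts ℋ.G S).left ≫ ℋ.G.hom) (IsLocalRing.closedPoint S) =
        IsLocalRing.closedPoint S := by
      have h3 : (1 : Pts ℋ.G S).left ≫ ℋ.G.hom = 𝟙 _ := by
        rw [h]
        exact Spec.map_id _
      rw [h3]
      rfl
    exact h2
  show cpt (sec ℋ (x.map (σ : N →ₐ[K] N))) ∈
    connectedComponentIn (specialFibre ℋ.G) (cpt (1 : Pts ℋ.G S))
  rw [e2, e1]
  have h5 := (v.continuous.continuousOn (s := specialFibre ℋ.G)).image_connectedComponentIn_subset hone
  exact connectedComponentIn_mono _ hsub (h5 ⟨_, hx, rfl⟩)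

end Pool.Agent.Helper37.Tm
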