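import Pool.Agent.Helper50.Tm.Goals
import Pool.Agent.Helper8.Nm.LIFTK
import Pool.Agent.Helper82.Nm.Kpt

/-!
Packet REDS of the project TAME (MP_f619a5_ag): reductions of sections.
-/

set_option autoImplicit false

open CategoryTheory AlgebraicGeometry Limits TensorProduct MonoidalCategory
open scoped Obj

namespace Pool.Agent.Helper37.Tm

open Pool.Agent.Helper40.Nm (specOver specialFibre)
open Pool.Agent.Helper50.Tm

/-- the point of the special fibre given by the reduction of a section -/
theorem redk_pt {R : Type} [CommRing R] [IsLocalRing R] {G : Over (Spec (CommRingCat.of R))}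
    (s : Pts G R) :
    (redk s).left (IsLocalRing.closedPoint (IsLocalRing.ResidueField R)) = cpt s := by
  have h1 : (redk s).left = Spec.map (CommRingCat.ofHom (IsLocalRing.residue R)) ≫ s.left := rfl
  rw [h1]
  have h2 : (Spec.map (CommRingCat.ofHom (IsLocalRing.residue R)) ≫ s.left)
      (IsLocalRing.closedPoint (IsLocalRing.ResidueField R)) =
      s.left ((Spec.map (CommRingCat.ofHom (IsLocalRing.residue R)))
        (IsLocalRing.closedPoint (IsLocalRing.ResidueField R))) := rfl
  rw [h2]
  show s.left _ = s.left (IsLocalRing.closedPoint R)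
  congr 1
  exact IsLocalRing.comap_closedPoint (IsLocalRing.residue R)

theorem gREDS : REDS := by
  intro R _ _ _ _ _ G hG
  refine ⟨?_, ?_, ?_⟩
  · intro r
    obtain ⟨s, hs⟩ := Pool.Agent.Helper8.Nm.liftk R G hG r
    exact ⟨s, hs⟩
  · intro s s'
    unfold SameComp SameCompk
    rw [redk_pt, redk_pt]
  · intro x hx
    have hFclosed : IsClosed (specialFibre G) := by
      have h1 : IsClosed ({IsLocalRing.closedPoint R} : Set (PrimeSpectrum R)) := by
        have := (PrimeSpectrum.isClosed_singleton_iff_isMaximal (IsLocalRing.closedPoint R)).mpr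
        exact this (IsLocalRing.maximalIdeal.isMaximal R)
      have h2 : Continuous G.hom := G.hom.continuous
      exact h1.preimage h2
    obtain ⟨s, -, hs⟩ := Pool.Agent.Helper82.Nm.kpt Pool.Agent.Helper8.Nm.liftk R G hG x ⊤ hx
      trivial
    have hcl : closure ({x} : Set G.left) ⊆ specialFibre G := by
      apply hFclosed.closure_subset_iff.mpr
      rw [Set.singleton_subset_iff]
      exact hx
    have hpre : _root_.IsPreconnected (closure ({x} : Set G.left)) :=
      isPreconnected_singleton.closure
    have hsub : closure ({x} : Set G.left) ⊆ connectedComponentIn (specialFibre G) x :=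
      hpre.subset_connectedComponentIn (subset_closure rfl) hcl
    exact ⟨s, connectedComponentIn_eq (hsub hs)⟩

end Pool.Agent.Helper37.Tm
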